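import Mathlib
import Pool.Agent.Wills.PureLarge
import Pool.Agent.Wills.PosLim
import Pool.Agent.Wills.PosHull

/-!
# Wills' bound for the number of integer points of a convex body by its intrinsic volumes
-/

set_option autoImplicit false

open MeasureTheory Filter Topology
open scoped Pointwise

namespace Pool.Agent.Results.MP_e807fe_co.WillsBound

/-- `κ_j`, the volume of the closed unit ball of `ℝ^j`. -/
noncomputable def kappa (j : ℕ) : ℝ :=
  (volume (Metric.closedBall (0 : EuclideanSpace ℝ (Fin j)) 1)).toReal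

/-- `V 0, …, V d` are the intrinsic volumes of the set `K ⊂ ℝ^d`, i.e. Steiner's formula
`vol (K + t B) = ∑ κ_(d-i) V_i t^(d-i)` holds for all `t ≥ 0` (`B` the closed unit ball). -/
def IntrinsicVolumes {d : ℕ} (K : Set (EuclideanSpace ℝ (Fin d))) (V : Fin (d + 1) → ℝ) : Prop :=
  ∀ t : ℝ, 0 ≤ t → (volume (K + Metric.closedBall (0 : EuclideanSpace ℝ (Fin d)) t)).toReal =
    ∑ i : Fin (d + 1), kappa (d - i) * V i * t ^ (d - (i : ℕ))

open Pool.Agent.Wills in
lemma kappa_eq (j : ℕ) : kappa j = kap j := by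
  unfold kappa kap
  rcases Nat.eq_zero_or_pos j with h | h
  · subst h
    have h1 : Metric.closedBall (0 : EuclideanSpace ℝ (Fin 0)) 1 = Set.univ := by
      ext x
      simp [Subsingleton.elim x 0]
    rw [h1, volume_euclideanSpace_eq_dirac]
    simp
  · have : Nonempty (Fin j) := ⟨⟨0, h⟩⟩
    rw [EuclideanSpace.volume_closedBall]
    have h2 : Real.pi ^ ((j : ℝ) / 2) = Real.sqrt Real.pi ^ j := by
      rw [Real.sqrt_eq_rpow, ← Real.rpow_natCast, ← Real.rpow_mul Real.pi_pos.le]
      congr 1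
      ring
    have h3 : 0 < Real.Gamma ((j : ℝ) / 2 + 1) := Real.Gamma_pos_of_pos (by positivity)
    simp only [ENNReal.ofReal_one, one_pow, one_mul, Fintype.card_fin]
    rw [ENNReal.toReal_ofReal (by positivity), h2]

/-- the volume of the parallel body is a polynomial (Steiner's formula) -/
lemma exists_steiner {d : ℕ} {K : Set (EuclideanSpace ℝ (Fin d))} (hK : IsCompact K)
    (hc : Convex ℝ K) (hne : K.Nonempty) :
    ∃ u : ℕ → ℝ, ∀ t : ℝ, 0 ≤ t →
      (volume (K + Metric.closedBall (0 : EuclideanSpace ℝ (Fin d)) t)).toReal =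
        ∑ i ∈ Finset.range (d + 1), u i * t ^ i := by
  set f : ℝ → ℝ := fun t =>
    (volume (K + Metric.closedBall (0 : EuclideanSpace ℝ (Fin d)) t)).toReal with hf
  have happ : ∀ e : ℝ, 0 < e → ∃ c : ℕ → ℝ, (∀ i, 0 ≤ c i) ∧ ∀ t : ℝ, 0 < t →
      ∑ i ∈ Finset.range (d + 1), c i * t ^ i ≤ f t ∧
      f t ≤ ∑ i ∈ Finset.range (d + 1), c i * (t + e) ^ i := by
    intro e he
    obtain ⟨A, hA, h1, h2⟩ := Pool.Agent.Wills.exists_net hK hc hne he
    obtain ⟨c, hc0, hcs⟩ := Pool.Agent.Wills.hull_poly A hA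
    have hAc : IsCompact (convexHull ℝ (A : Set (EuclideanSpace ℝ (Fin d)))) :=
      (A.finite_toSet).isCompact_convexHull (𝕜 := ℝ)
    refine ⟨c, hc0, fun t ht => ⟨?_, ?_⟩⟩
    · rw [← hcs t ht]
      exact Pool.Agent.Wills.vol_mono hK (Set.add_subset_add_right h1)
    · rw [← hcs (t + e) (by positivity)]
      refine Pool.Agent.Wills.vol_mono hAc ?_
      refine (Set.add_subset_add_right h2).trans ?_
      rw [add_assoc, closedBall_add_closedBall he.le ht.le, add_zero, add_comm e t]
  choose c hc0 hcc using fun n : ℕ => happ (1 / ((n : ℝ) + 1)) (by positivity)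
  have hbd : ∀ n i, i < d + 1 → c n i ≤ f 1 := by
    intro n i hi
    refine le_trans ?_ (hcc n 1 one_pos).1
    have h2 := Finset.single_le_sum (f := fun i => c n i * (1 : ℝ) ^ i)
      (fun i _ => by have := hc0 n i; positivity) (Finset.mem_range.2 hi)
    simpa using h2
  have hcomp : IsCompact (Set.univ.pi (fun _ : Fin (d + 1) => Set.Icc (0 : ℝ) (f 1))) :=
    isCompact_univ_pi (fun _ => isCompact_Icc)
  obtain ⟨a, ha, phi, hphi, hlim⟩ := hcomp.tendsto_subseq
    (x := fun n => fun i : Fin (d + 1) => c n i)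
    (fun n i _ => ⟨hc0 n i, hbd n i i.2⟩)
  have hlimi : ∀ i : Fin (d + 1), Tendsto (fun n => c (phi n) i) atTop (𝓝 (a i)) :=
    fun i => (tendsto_pi_nhds.1 hlim) i
  have heq : ∀ t : ℝ, 0 < t → f t = ∑ i : Fin (d + 1), a i * t ^ (i : ℕ) := by
    intro t ht
    have hL1 : Tendsto (fun n => ∑ i ∈ Finset.range (d + 1), c (phi n) i * t ^ i) atTop
        (𝓝 (∑ i : Fin (d + 1), a i * t ^ (i : ℕ))) := by
      simp_rw [← Fin.sum_univ_eq_sum_range (fun i => c _ i * t ^ i) (d + 1)]
      exact tendsto_finsetSum _ (fun i _ => (hlimi i).mul_const _)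
    have hte : Tendsto (fun n => t + 1 / ((phi n : ℝ) + 1)) atTop (𝓝 t) := by
      have h1 : Tendsto (fun n : ℕ => 1 / ((n : ℝ) + 1)) atTop (𝓝 0) :=
        tendsto_one_div_add_atTop_nhds_zero_nat
      have h2 := h1.comp hphi.tendsto_atTop
      have h3 := h2.const_add t
      simpa using h3
    have hL2 : Tendsto (fun n => ∑ i ∈ Finset.range (d + 1), c (phi n) i *
        (t + 1 / ((phi n : ℝ) + 1)) ^ i) atTop (𝓝 (∑ i : Fin (d + 1), a i * t ^ (i : ℕ))) := by
      have hrw : ∀ n, ∑ i ∈ Finset.range (d + 1), c (phi n) i * (t + 1 / ((phi n : ℝ) + 1)) ^ i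
          = ∑ i : Fin (d + 1), c (phi n) i * (t + 1 / ((phi n : ℝ) + 1)) ^ (i : ℕ) :=
        fun n => (Fin.sum_univ_eq_sum_range
          (fun i => c (phi n) i * (t + 1 / ((phi n : ℝ) + 1)) ^ i) (d + 1)).symm
      simp_rw [hrw]
      exact tendsto_finsetSum _ (fun i _ => (hlimi i).mul (hte.pow _))
    refine le_antisymm ?_ ?_
    · exact ge_of_tendsto hL2 (Eventually.of_forall (fun n => (hcc (phi n) t ht).2))
    · exact le_of_tendsto hL1 (Eventually.of_forall (fun n => (hcc (phi n) t ht).1))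
  -- the value at `t = 0` by continuity from the right
  have hzero : f 0 = ∑ i : Fin (d + 1), a i * (0 : ℝ) ^ (i : ℕ) := by
    have h1 : Tendsto (fun r : ℝ => volume (Metric.cthickening r K)) (𝓝 0) (𝓝 (volume K)) :=
      tendsto_measure_cthickening_of_isCompact hK
    have h2 : Tendsto (fun r : ℝ => (volume (Metric.cthickening r K)).toReal) (𝓝[>] 0)
        (𝓝 (volume K).toReal) :=
      ((ENNReal.tendsto_toReal hK.measure_lt_top.ne).comp h1).mono_left nhdsWithin_le_nhds
    have h3 : Tendsto (fun r : ℝ => ∑ i : Fin (d + 1), a i * r ^ (i : ℕ)) (𝓝[>] 0)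
        (𝓝 (∑ i : Fin (d + 1), a i * (0 : ℝ) ^ (i : ℕ))) := by
      have h4 : Continuous (fun r : ℝ => ∑ i : Fin (d + 1), a i * r ^ (i : ℕ)) := by fun_prop
      exact (h4.tendsto 0).mono_left nhdsWithin_le_nhds
    have h5 : f 0 = (volume K).toReal := by
      rw [hf]
      simp
    rw [h5]
    refine tendsto_nhds_unique h2 (h3.congr' ?_)
    filter_upwards [self_mem_nhdsWithin] with r hr
    have hr0 : (0 : ℝ) < r := hr
    rw [← heq r hr0, hf]
    simp only
    rw [hK.add_closedBall_zero hr0.le]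
  refine ⟨fun i => if hi : i < d + 1 then a ⟨i, hi⟩ else 0, fun t ht => ?_⟩
  rw [← Fin.sum_univ_eq_sum_range
    (fun i => (if hi : i < d + 1 then a ⟨i, hi⟩ else 0) * t ^ i) (d + 1)]
  have h6 : ∑ i : Fin (d + 1), (if hi : (i : ℕ) < d + 1 then a ⟨i, hi⟩ else 0) * t ^ (i : ℕ)
      = ∑ i : Fin (d + 1), a i * t ^ (i : ℕ) :=
    Finset.sum_congr rfl (fun i _ => by rw [dif_pos i.2])
  rw [h6]
  rcases ht.eq_or_lt with h0 | h0
  · rw [← h0]
    exact hzero
  · exact heq t h0

/-- The number of integer points of a convex body `K` of `ℝ^d` (a nonempty compact convex set) is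
at most the sum of the numbers `κ_i κ_(d-i) / κ_d * V_i(K)`, `0 ≤ i ≤ d`, where `V_i(K)` is the
`i`-th intrinsic volume of `K`; these are well defined: exactly one `V` satisfies Steiner's
formula. -/
theorem result (d : ℕ) (K : Set (EuclideanSpace ℝ (Fin d))) (hK : IsCompact K)
    (hc : Convex ℝ K) (hne : K.Nonempty) :
    (∃! V : Fin (d + 1) → ℝ, IntrinsicVolumes K V) ∧
    ∀ V : Fin (d + 1) → ℝ, IntrinsicVolumes K V →
      {x : EuclideanSpace ℝ (Fin d) | x ∈ K ∧ ∀ j, ∃ m : ℤ, x j = m}.Finite ∧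
      ({x : EuclideanSpace ℝ (Fin d) | x ∈ K ∧ ∀ j, ∃ m : ℤ, x j = m}.ncard : ℝ) ≤
        ∑ i : Fin (d + 1), kappa i * kappa (d - i) / kappa d * V i := by
  have hkp : ∀ j, 0 < kappa j := fun j => by rw [kappa_eq]; exact Pool.Agent.Wills.kap_pos j
  refine ⟨?_, ?_⟩
  · obtain ⟨u, hu⟩ := exists_steiner hK hc hne
    refine ⟨fun i => u (d - i) / kappa (d - i), ?_, ?_⟩
    · intro t ht
      rw [hu t ht, ← Finset.sum_range_reflect,
        ← Fin.sum_univ_eq_sum_range (fun j => u (d + 1 - 1 - j) * t ^ (d + 1 - 1 - j)) (d + 1)]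
      refine Finset.sum_congr rfl (fun i _ => ?_)
      have h1 := (hkp (d - i)).ne'
      simp only [Nat.add_sub_cancel]
      field_simp
    · intro W hW
      -- two polynomials which agree for all `t ≥ 0` have the same coefficients
      set p : Polynomial ℝ := ∑ i ∈ Finset.range (d + 1), Polynomial.C (u i) * Polynomial.X ^ i
        with hp
      set q : Polynomial ℝ := ∑ i : Fin (d + 1),
        Polynomial.C (kappa (d - i) * W i) * Polynomial.X ^ (d - (i : ℕ)) with hq
      have hpq : p = q := by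
        refine Polynomial.eq_of_infinite_eval_eq p q ?_
        refine (Set.Ioi_infinite (0 : ℝ)).mono (fun t ht => ?_)
        have ht0 : (0 : ℝ) < t := ht
        show p.eval t = q.eval t
        rw [hp, hq, Polynomial.eval_finsetSum, Polynomial.eval_finsetSum]
        simp only [Polynomial.eval_mul, Polynomial.eval_C, Polynomial.eval_pow, Polynomial.eval_X]
        rw [← hu t ht0.le, hW t ht0.le]
      funext i
      have hi : (i : ℕ) ≤ d := Nat.lt_succ_iff.1 i.2
      have h1 : p.coeff (d - i) = u (d - i) := by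
        rw [hp, Polynomial.finsetSum_coeff]
        simp only [Polynomial.coeff_C_mul, Polynomial.coeff_X_pow]
        rw [Finset.sum_eq_single (d - (i : ℕ))]
        · simp
        · intro j _ hj
          simp [Ne.symm hj]
        · intro h
          exact absurd (Finset.mem_range.2 (by omega)) h
      have h2 : q.coeff (d - i) = kappa (d - i) * W i := by
        rw [hq, Polynomial.finsetSum_coeff]
        simp only [Polynomial.coeff_C_mul, Polynomial.coeff_X_pow]
        rw [Finset.sum_eq_single i]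
        · simp
        · intro j _ hj
          have hj2 : (j : ℕ) ≤ d := Nat.lt_succ_iff.1 j.2
          have hne2 : (j : ℕ) ≠ i := fun h => hj (Fin.ext h)
          rw [if_neg (by omega), mul_zero]
        · intro h
          exact absurd (Finset.mem_univ i) h
      have h3 := (hkp (d - i)).ne'
      rw [eq_div_iff h3, mul_comm, ← h2, ← hpq, h1]
  · intro V hV
    have himg : {x : EuclideanSpace ℝ (Fin d) | x ∈ K ∧ ∀ j, ∃ m : ℤ, x j = m} =
        Pool.Agent.Wills.pt '' Pool.Agent.Wills.latPts K := by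
      ext x
      constructor
      · rintro ⟨hx, hm⟩
        choose m hm using hm
        have he : Pool.Agent.Wills.pt m = x := by
          ext j
          rw [hm j]
          rfl
        exact ⟨m, by show Pool.Agent.Wills.pt m ∈ K; rw [he]; exact hx, he⟩
      · rintro ⟨z, hz, rfl⟩
        exact ⟨hz, fun j => ⟨z j, rfl⟩⟩
    have hfin := Pool.Agent.Wills.latPts_finite hK
    rw [himg, Set.ncard_image_of_injective _ Pool.Agent.Wills.pt_injective]
    refine ⟨hfin.image _, ?_⟩
    set W : ℕ → ℝ := fun i => if hi : i < d + 1 then V ⟨i, hi⟩ else 0 with hWdef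
    have hWV : ∀ i : Fin (d + 1), W i = V i := fun i => by
      rw [hWdef]
      simp only
      rw [dif_pos i.2]
    have hW : Pool.Agent.Wills.IsSteiner K W := by
      intro t ht
      rw [hV t ht, ← Fin.sum_univ_eq_sum_range
        (fun i => Pool.Agent.Wills.kap (d - i) * W i * t ^ (d - i)) (d + 1)]
      exact Finset.sum_congr rfl (fun i _ => by rw [hWV, kappa_eq])
    have h := Pool.Agent.Wills.wills_of_pure d (Pool.Agent.Wills.pureIneq_all d)
      (Pool.Agent.Wills.steinerNonneg_of_hull (fun A hA => Pool.Agent.Wills.hull_poly A hA))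
      hK hc hne hW
    refine h.trans (le_of_eq ?_)
    rw [← Fin.sum_univ_eq_sum_range
      (fun i => Pool.Agent.Wills.beta d i * W i) (d + 1)]
    refine Finset.sum_congr rfl (fun i _ => ?_)
    rw [hWV, kappa_eq, kappa_eq, kappa_eq]
    rfl

end Pool.Agent.Results.MP_e807fe_co.WillsBound
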